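import Pool.Agent.Lib.MatrixWeyl.Mono

-- part MP_7b724e_an.Core
section

/-!
The key inequality for the functions `x ↦ (max (x - s) 0) ^ 2`.
-/

set_option autoImplicit false

open Matrix
open scoped ComplexOrder

namespace Pool.Agent.MP_7b724e_an

open Pool.Agent.Lib.MatrixWeyl

variable {n : Type*} [Fintype n] [DecidableEq n]

/-- The square root of a matrix. -/
noncomputable def rt (A : Matrix n n ℂ) : Matrix n n ℂ := cfc Real.sqrt A

/-- The matrix `A^(1/2) B A^(1/2)`. -/
noncomputable def TT (A B : Matrix n n ℂ) : Matrix n n ℂ := rt A * B * rt A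

theorem rt_herm (A : Matrix n n ℂ) : (rt A)ᴴ = rt A := cfc_herm A _

theorem cfc_id_eq {A : Matrix n n ℂ} (hA : A.IsHermitian) : cfc (fun x : ℝ => x) A = A :=
  cfc_id' ℝ A hA

theorem rt_mul_rt {A : Matrix n n ℂ} (hA : A.PosSemidef) : rt A * rt A = A := by
  unfold rt
  rw [cfc_mul', cfc_congr_eig hA.1 (g := fun x => x)
    fun i => Real.mul_self_sqrt (hA.eigenvalues_nonneg i)]
  exact cfc_id_eq hA.1

theorem TT_psd (A : Matrix n n ℂ) {B : Matrix n n ℂ} (hB : B.PosSemidef) :
    (TT A B).PosSemidef := by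
  have := hB.mul_mul_conjTranspose_same (rt A)
  rwa [rt_herm] at this

theorem TT_charpoly {A : Matrix n n ℂ} (hA : A.PosSemidef) (B : Matrix n n ℂ) :
    (TT A B).charpoly = (A * B).charpoly := by
  unfold TT
  rw [charpoly_mul_comm, ← mul_assoc, rt_mul_rt hA]

theorem TT_sub (A B B' : Matrix n n ℂ) : TT A B - TT A B' = TT A (B - B') := by
  unfold TT
  rw [mul_sub, sub_mul]

theorem trf_TT_comm {A B : Matrix n n ℂ} (hA : A.PosSemidef) (hB : B.PosSemidef) (f : ℝ → ℝ) :
    trf f (TT A B) = trf f (TT B A) :=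
  trf_congr_charpoly (TT_psd A hB).1 (TT_psd B hA).1
    (by rw [TT_charpoly hA, TT_charpoly hB, charpoly_mul_comm]) f

theorem trf_TT_mono {A B A' B' : Matrix n n ℂ} (hA : A.PosSemidef) (hB : B.PosSemidef)
    (hA' : A'.PosSemidef) (hB' : B'.PosSemidef) (h1 : (A - A').PosSemidef)
    (h2 : (B - B').PosSemidef) {f : ℝ → ℝ} (hf : Monotone f) :
    trf f (TT A' B') ≤ trf f (TT A B) := by
  calc trf f (TT A' B') ≤ trf f (TT A' B) :=
        trf_mono (TT_psd A' hB').1 (TT_psd A' hB).1 (by rw [TT_sub]; exact TT_psd _ h2) hf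
    _ = trf f (TT B A') := trf_TT_comm hA' hB f
    _ ≤ trf f (TT B A) :=
        trf_mono (TT_psd B hA').1 (TT_psd B hA).1 (by rw [TT_sub]; exact TT_psd _ h1) hf
    _ = trf f (TT A B) := trf_TT_comm hB hA f

/-- The Bhatia-Kittaneh inequality in trace form. -/
theorem bk {A B : Matrix n n ℂ} (hA : A.PosDef) (hB : B.PosSemidef) {f : ℝ → ℝ}
    (hf : Monotone f) : trf (fun x => f (2 * Real.sqrt x)) (TT A B) ≤ trf f (A + B) := by
  have hT := TT_psd A hB
  set X := rt A with hX
  set G := rt (TT A B) with hG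
  set Xi : Matrix n n ℂ := cfc (fun x : ℝ => (Real.sqrt x)⁻¹) A with hXi
  have hXh : Xᴴ = X := rt_herm A
  have hGh : Gᴴ = G := rt_herm _
  have hXih : Xiᴴ = Xi := cfc_herm A _
  have hsq : ∀ i, Real.sqrt (hA.1.eigenvalues i) ≠ 0 := fun i =>
    (Real.sqrt_pos.mpr (hA.eigenvalues_pos i)).ne'
  have h1 : X * Xi = 1 := by
    rw [hX, hXi]
    unfold rt
    rw [cfc_mul', cfc_congr_eig hA.1 (g := fun _ => 1) fun i => mul_inv_cancel₀ (hsq i)]
    exact cfc_const_one ℝ A hA.1
  have h2 : Xi * X = 1 := mul_eq_one_comm.mp h1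
  have hXX : X * X = A := rt_mul_rt hA.posSemidef
  have hGG : G * G = X * B * X := rt_mul_rt hT
  set Z := Xi * G with hZ
  have hZh : Zᴴ = G * Xi := by rw [hZ, conjTranspose_mul, hGh, hXih]
  have hXZ : X * Z = G := by rw [hZ, ← mul_assoc, h1, one_mul]
  have hZX : Zᴴ * X = G := by rw [hZh, mul_assoc, h2, mul_one]
  have hZZ : Z * Zᴴ = B := by
    rw [hZh, hZ]
    calc Xi * G * (G * Xi) = Xi * (G * G) * Xi := by simp only [mul_assoc]
      _ = (Xi * X) * B * (X * Xi) := by rw [hGG]; simp only [mul_assoc]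
      _ = B := by rw [h1, h2, one_mul, mul_one]
  set S := X + Z with hS
  have e1 : (1 / 2 : ℝ) • (Sᴴ * S) - (2 : ℝ) • G = (1 / 2 : ℝ) • ((X - Z)ᴴ * (X - Z)) := by
    rw [hS, conjTranspose_add, conjTranspose_sub, hXh]
    simp only [add_mul, mul_add, sub_mul, mul_sub, hXZ, hZX]
    module
  have e2 : (A + B) - (1 / 2 : ℝ) • (S * Sᴴ) = (1 / 2 : ℝ) • ((X - Z) * (X - Z)ᴴ) := by
    rw [hS, conjTranspose_add, conjTranspose_sub, hXh]
    simp only [add_mul, mul_add, sub_mul, mul_sub, hXX, hZZ]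
    module
  have half : (0 : ℝ) ≤ 1 / 2 := by norm_num
  have p1 : ((1 / 2 : ℝ) • (Sᴴ * S)).PosSemidef := (posSemidef_conjTranspose_mul_self S).smul half
  have p2 : ((1 / 2 : ℝ) • (S * Sᴴ)).PosSemidef := (posSemidef_self_mul_conjTranspose S).smul half
  have e3 : (2 : ℝ) • G = cfc (fun x : ℝ => 2 * Real.sqrt x) (TT A B) := by
    rw [hG]
    unfold rt
    exact (cfc_const_mul 2 Real.sqrt (TT A B) (contOn_spec _ _)).symm
  have p3 : ((2 : ℝ) • G).IsHermitian := by rw [e3]; exact cfc_herm _ _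
  calc trf (fun x => f (2 * Real.sqrt x)) (TT A B) = trf f ((2 : ℝ) • G) := by
        rw [e3, trf_cfc hT.1]
    _ ≤ trf f ((1 / 2 : ℝ) • (Sᴴ * S)) := by
        refine trf_mono p3 p1.1 ?_ hf
        rw [e1]
        exact (posSemidef_conjTranspose_mul_self _).smul half
    _ = trf f ((1 / 2 : ℝ) • (S * Sᴴ)) := by
        refine trf_congr_charpoly p1.1 p2.1 ?_ f
        rw [← smul_mul_assoc, charpoly_mul_comm, mul_smul_comm]
    _ ≤ trf f (A + B) := by
        refine trf_mono p2.1 (hA.1.add hB.1) ?_ hf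
        rw [e2]
        exact (posSemidef_self_mul_conjTranspose _).smul half

/-- The deficit functional. -/
noncomputable def DD (f : ℝ → ℝ) (A B : Matrix n n ℂ) : ℝ :=
  trf f (A + B) + 2 * trf (fun x => f (Real.sqrt x)) (TT A B) - trf f A - trf f B
    - trf (fun x => f (2 * Real.sqrt x)) (TT A B)

theorem DD_eq {A B : Matrix n n ℂ} (hA : A.PosSemidef) (hB : B.PosSemidef) (f : ℝ → ℝ) :
    DD f A B = ∑ i, (f ((hA.1.add hB.1).eigenvalues i)
      + 2 * f (Real.sqrt ((TT_psd A hB).1.eigenvalues i)) - f (hA.1.eigenvalues i)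
      - f (hB.1.eigenvalues i) - f (2 * Real.sqrt ((TT_psd A hB).1.eigenvalues i))) := by
  unfold DD
  rw [trf_eq (hA.1.add hB.1), trf_eq (TT_psd A hB).1, trf_eq (TT_psd A hB).1, trf_eq hA.1,
    trf_eq hB.1]
  simp only [Finset.sum_add_distrib, Finset.sum_sub_distrib, Finset.mul_sum]

theorem sum_eig {A : Matrix n n ℂ} (hA : A.IsHermitian) :
    ∑ i, hA.eigenvalues i = (trace A).re := by
  rw [hA.trace_eq_sum_eigenvalues, Complex.re_sum]
  simp

theorem sum_eig_sq {A : Matrix n n ℂ} (hA : A.IsHermitian) :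
    ∑ i, hA.eigenvalues i ^ 2 = (trace (A * A)).re := by
  have h1 := trf_eq hA (fun x => x * x)
  unfold trf at h1
  rw [← cfc_mul', cfc_id_eq hA] at h1
  rw [h1]
  exact Finset.sum_congr rfl fun i _ => by ring

theorem DD_quad {A B : Matrix n n ℂ} (hA : A.PosSemidef) (hB : B.PosSemidef) (a b c : ℝ) :
    DD (fun x => a * x ^ 2 + b * x + c) A B = 0 := by
  rw [DD_eq hA hB]
  have hT := TT_psd A hB
  have e1 : ∑ i, (hA.1.add hB.1).eigenvalues i
      = ∑ i, hA.1.eigenvalues i + ∑ i, hB.1.eigenvalues i := by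
    rw [sum_eig, sum_eig, sum_eig, trace_add, Complex.add_re]
  have e2 : ∑ i, (hA.1.add hB.1).eigenvalues i ^ 2
      = ∑ i, hA.1.eigenvalues i ^ 2 + ∑ i, hB.1.eigenvalues i ^ 2
        + 2 * ∑ i, hT.1.eigenvalues i := by
    rw [sum_eig_sq, sum_eig_sq, sum_eig_sq, sum_eig]
    have : trace (TT A B) = trace (A * B) := by
      unfold TT
      rw [trace_mul_cycle, rt_mul_rt hA]
    rw [this]
    simp only [add_mul, mul_add, trace_add, Complex.add_re, trace_mul_comm B A]
    ring
  have e3 : ∀ i, (a * (hA.1.add hB.1).eigenvalues i ^ 2 + b * (hA.1.add hB.1).eigenvalues i + c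
      + 2 * (a * Real.sqrt (hT.1.eigenvalues i) ^ 2 + b * Real.sqrt (hT.1.eigenvalues i) + c)
      - (a * hA.1.eigenvalues i ^ 2 + b * hA.1.eigenvalues i + c)
      - (a * hB.1.eigenvalues i ^ 2 + b * hB.1.eigenvalues i + c)
      - (a * (2 * Real.sqrt (hT.1.eigenvalues i)) ^ 2
          + b * (2 * Real.sqrt (hT.1.eigenvalues i)) + c))
      = a * ((hA.1.add hB.1).eigenvalues i ^ 2 - hA.1.eigenvalues i ^ 2 - hB.1.eigenvalues i ^ 2
          - 2 * hT.1.eigenvalues i)
        + b * ((hA.1.add hB.1).eigenvalues i - hA.1.eigenvalues i - hB.1.eigenvalues i) := by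
    intro i
    have := Real.sq_sqrt (hT.eigenvalues_nonneg i)
    rw [mul_pow, this]
    ring
  rw [Finset.sum_congr rfl fun i _ => e3 i]
  simp only [Finset.sum_add_distrib, Finset.sum_sub_distrib, ← Finset.mul_sum]
  rw [e1, e2]
  ring

theorem DD_add {A B : Matrix n n ℂ} (hA : A.PosSemidef) (hB : B.PosSemidef) (f g : ℝ → ℝ) :
    DD (fun x => f x + g x) A B = DD f A B + DD g A B := by
  rw [DD_eq hA hB, DD_eq hA hB, DD_eq hA hB, ← Finset.sum_add_distrib]
  exact Finset.sum_congr rfl fun i _ => by ring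

/-- The truncated square. -/
noncomputable def ff (s x : ℝ) : ℝ := (max (x - s) 0) ^ 2

/-- Its bounded monotone companion. -/
noncomputable def hh (s x : ℝ) : ℝ := s ^ 2 - (max (s - x) 0) ^ 2

theorem ff_eq (s x : ℝ) : ff s x = hh s x + (1 * x ^ 2 + (-2 * s) * x + 0) := by
  unfold ff hh
  rcases le_total x s with h | h
  · rw [max_eq_right (by linarith), max_eq_left (by linarith)]
    ring
  · rw [max_eq_left (by linarith), max_eq_right (by linarith)]
    ring

theorem DD_ff_hh {A B : Matrix n n ℂ} (hA : A.PosSemidef) (hB : B.PosSemidef) (s : ℝ) :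
    DD (ff s) A B = DD (hh s) A B := by
  have : ff s = fun x => hh s x + (fun x => 1 * x ^ 2 + (-2 * s) * x + 0) x :=
    funext fun x => ff_eq s x
  rw [this, DD_add hA hB, DD_quad hA hB, add_zero]

theorem ff_mono (s : ℝ) : Monotone (ff s) := fun x y h => by
  unfold ff
  exact pow_le_pow_left₀ (le_max_right _ _) (max_le_max (by linarith) le_rfl) 2

theorem hh_mono (s : ℝ) : Monotone (hh s) := fun x y h => by
  unfold hh
  have : (max (s - y) 0) ^ 2 ≤ (max (s - x) 0) ^ 2 :=
    pow_le_pow_left₀ (le_max_right _ _) (max_le_max (by linarith) le_rfl) 2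
  linarith

theorem hh_min (s x : ℝ) : hh s (min x s) = hh s x := by
  unfold hh
  rcases le_total x s with h | h
  · rw [min_eq_left h]
  · rw [min_eq_right h, sub_self, max_self, max_eq_right (by linarith)]

theorem ff_min (s x : ℝ) : ff s (min x s) = 0 := by
  unfold ff
  rw [max_eq_right (by linarith [min_le_right x s])]
  ring

theorem phi_mono {s x y : ℝ} (hx : 0 ≤ x) (h : x ≤ y) :
    2 * hh s x - hh s (2 * x) ≤ 2 * hh s y - hh s (2 * y) := by
  unfold hh
  rcases le_total x s with h1 | h1 <;> rcases le_total y s with h2 | h2 <;>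
    rcases le_total (2 * x) s with h3 | h3 <;> rcases le_total (2 * y) s with h4 | h4 <;>
    simp only [max_eq_left (sub_nonneg.mpr h1), max_eq_left (sub_nonneg.mpr h2),
      max_eq_left (sub_nonneg.mpr h3), max_eq_left (sub_nonneg.mpr h4),
      max_eq_right (sub_nonpos.mpr h1), max_eq_right (sub_nonpos.mpr h2),
      max_eq_right (sub_nonpos.mpr h3), max_eq_right (sub_nonpos.mpr h4)] <;> nlinarith

theorem DD_hh_eq {A B : Matrix n n ℂ} (hB : B.PosSemidef) (s : ℝ) :
    DD (hh s) A B = trf (hh s) (A + B) - trf (hh s) A - trf (hh s) B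
      + trf (fun x => 2 * hh s (Real.sqrt x) - hh s (2 * Real.sqrt x)) (TT A B) := by
  unfold DD
  rw [trf_eq (TT_psd A hB).1, trf_eq (TT_psd A hB).1, trf_eq (TT_psd A hB).1]
  simp only [Finset.sum_sub_distrib, ← Finset.mul_sum]
  ring

theorem trunc_le {A : Matrix n n ℂ} (hA : A.IsHermitian) (s : ℝ) :
    (A - cfc (fun x : ℝ => min x s) A).PosSemidef := by
  have h1 : A - cfc (fun x : ℝ => min x s) A = cfc (fun x : ℝ => x - min x s) A := by
    rw [cfc_sub (fun x : ℝ => x) (fun x : ℝ => min x s) A (contOn_spec _ _) (contOn_spec _ _),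
      cfc_id_eq hA]
  rw [h1]
  exact cfc_posSemidef hA fun i => sub_nonneg.mpr (min_le_left _ _)

/-- The key inequality. -/
theorem DD_ff_nonneg {A B : Matrix n n ℂ} (hA : A.PosDef) (hB : B.PosDef) {s : ℝ} (hs : 0 < s) :
    0 ≤ DD (ff s) A B := by
  set A' := cfc (fun x : ℝ => min x s) A with hA'def
  set B' := cfc (fun x : ℝ => min x s) B with hB'def
  have hA' : A'.PosDef := cfc_posDef hA.1 fun i => lt_min (hA.eigenvalues_pos i) hs
  have hB' : B'.PosDef := cfc_posDef hB.1 fun i => lt_min (hB.eigenvalues_pos i) hs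
  have h1 : (A - A').PosSemidef := trunc_le hA.1 s
  have h2 : (B - B').PosSemidef := trunc_le hB.1 s
  have step1 : DD (hh s) A' B' ≤ DD (hh s) A B := by
    rw [DD_hh_eq hB.posSemidef, DD_hh_eq hB'.posSemidef]
    have a1 : trf (hh s) (A' + B') ≤ trf (hh s) (A + B) := by
      refine trf_mono (hA'.1.add hB'.1) (hA.1.add hB.1) ?_ (hh_mono s)
      have : A + B - (A' + B') = (A - A') + (B - B') := by abel
      rw [this]
      exact h1.add h2
    have a2 : trf (hh s) A' = trf (hh s) A := by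
      rw [hA'def, trf_cfc hA.1]
      simp only [hh_min]
    have a3 : trf (hh s) B' = trf (hh s) B := by
      rw [hB'def, trf_cfc hB.1]
      simp only [hh_min]
    have a4 : trf (fun x => 2 * hh s (Real.sqrt x) - hh s (2 * Real.sqrt x)) (TT A' B')
        ≤ trf (fun x => 2 * hh s (Real.sqrt x) - hh s (2 * Real.sqrt x)) (TT A B) :=
      trf_TT_mono hA.posSemidef hB.posSemidef hA'.posSemidef hB'.posSemidef h1 h2
        fun x y hxy => phi_mono (Real.sqrt_nonneg x) (Real.sqrt_le_sqrt hxy)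
    linarith
  have step2 : 0 ≤ DD (ff s) A' B' := by
    unfold DD
    have b1 := bk hA' hB'.posSemidef (ff_mono s)
    have b2 : trf (ff s) A' = 0 := by
      rw [hA'def, trf_cfc hA.1, trf_eq hA.1]
      simp only [ff_min, Finset.sum_const_zero]
    have b3 : trf (ff s) B' = 0 := by
      rw [hB'def, trf_cfc hB.1, trf_eq hB.1]
      simp only [ff_min, Finset.sum_const_zero]
    have b4 : 0 ≤ trf (fun x => ff s (Real.sqrt x)) (TT A' B') := by
      rw [trf_eq (TT_psd A' hB'.posSemidef).1]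
      exact Finset.sum_nonneg fun i _ => sq_nonneg _
    linarith
  rw [DD_ff_hh hA.posSemidef hB.posSemidef]
  rw [DD_ff_hh hA'.posSemidef hB'.posSemidef] at step2
  linarith

end Pool.Agent.MP_7b724e_an

end

-- part MP_7b724e_an.Power
section

/-!
From the truncated squares to the power functions, by integration against `s ^ (q - 3)`.
-/

set_option autoImplicit false

open Matrix
open scoped ComplexOrder

namespace Pool.Agent.MP_7b724e_an

open Pool.Agent.Lib.MatrixWeyl

theorem contOn_integrand (q x : ℝ) {m L : ℝ} (hm : 0 < m) (hL : 0 < L) :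
    ContinuousOn (fun s : ℝ => ff s x * s ^ (q - 3)) (Set.uIcc m L) := by
  refine ContinuousOn.mul ?_ ?_
  · unfold ff
    fun_prop
  · refine ContinuousOn.rpow_const continuousOn_id fun s hs => Or.inl ?_
    have : min m L ≤ s := hs.1
    exact (lt_of_lt_of_le (lt_min hm hL) this).ne'

theorem integrable_integrand (q x : ℝ) {m L : ℝ} (hm : 0 < m) (hL : 0 < L) :
    IntervalIntegrable (fun s : ℝ => ff s x * s ^ (q - 3)) MeasureTheory.volume m L :=
  (contOn_integrand q x hm hL).intervalIntegrable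

theorem integral_ff {q : ℝ} (h0 : q ≠ 0) (h1 : q ≠ 1) (h2 : q ≠ 2) {m x L : ℝ} (hm : 0 < m)
    (hx : m ≤ x) (hL : x ≤ L) :
    ∫ s in m..L, ff s x * s ^ (q - 3)
      = 2 / (q * (q - 1) * (q - 2)) * x ^ q
        + ((-(m ^ (q - 2) / (q - 2))) * x ^ 2 + (2 * m ^ (q - 1) / (q - 1)) * x
          + (-(m ^ q / q))) := by
  have hx0 : 0 < x := lt_of_lt_of_le hm hx
  have hL0 : 0 < L := lt_of_lt_of_le hx0 hL
  have h1' : q - 1 ≠ 0 := sub_ne_zero.mpr h1
  have h2' : q - 2 ≠ 0 := sub_ne_zero.mpr h2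
  rw [← intervalIntegral.integral_add_adjacent_intervals (integrable_integrand q x hm hx0)
    (integrable_integrand q x hx0 hL0)]
  have i2 : ∫ s in x..L, ff s x * s ^ (q - 3) = 0 := by
    rw [intervalIntegral.integral_congr (g := fun _ => (0 : ℝ))]
    · simp
    · intro s hs
      rw [Set.uIcc_of_le hL] at hs
      simp only [ff]
      rw [max_eq_right (by linarith [hs.1])]
      ring
  have i1 : ∫ s in m..x, ff s x * s ^ (q - 3)
      = (x ^ 2 * x ^ (q - 2) / (q - 2) - 2 * x * x ^ (q - 1) / (q - 1) + x ^ q / q)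
        - (x ^ 2 * m ^ (q - 2) / (q - 2) - 2 * x * m ^ (q - 1) / (q - 1) + m ^ q / q) := by
    refine intervalIntegral.integral_eq_sub_of_hasDerivAt
      (f := fun s : ℝ => x ^ 2 * s ^ (q - 2) / (q - 2) - 2 * x * s ^ (q - 1) / (q - 1) + s ^ q / q)
      (fun s hs => ?_) (integrable_integrand q x hm hx0)
    rw [Set.uIcc_of_le hx] at hs
    have hs0 : 0 < s := lt_of_lt_of_le hm hs.1
    have d1 := Real.hasDerivAt_rpow_const (x := s) (p := q - 2) (Or.inl hs0.ne')
    have d2 := Real.hasDerivAt_rpow_const (x := s) (p := q - 1) (Or.inl hs0.ne')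
    have d3 := Real.hasDerivAt_rpow_const (x := s) (p := q) (Or.inl hs0.ne')
    have d := (((d1.const_mul (x ^ 2)).div_const (q - 2)).sub
      ((d2.const_mul (2 * x)).div_const (q - 1))).add (d3.div_const q)
    refine HasDerivAt.congr_deriv d ?_
    have e1 : s ^ (q - 2 - 1) = s ^ (q - 3) := by congr 1; ring
    have e2 : s ^ (q - 1 - 1) = s ^ (q - 3) * s := by
      rw [← Real.rpow_add_one hs0.ne']; congr 1; ring
    have e3 : s ^ (q - 1) = s ^ (q - 3) * s * s := by
      rw [← Real.rpow_add_one hs0.ne', ← Real.rpow_add_one hs0.ne']; congr 1; ring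
    rw [e1, e2, e3]
    simp only [ff]
    rw [max_eq_left (by linarith [hs.2])]
    field_simp
    ring
  rw [i1, i2]
  have e2 : x ^ (q - 1) * x = x ^ q := by
    rw [← Real.rpow_add_one hx0.ne']; congr 1; ring
  have e3 : x ^ (q - 2) * x * x = x ^ q := by
    rw [← Real.rpow_add_one hx0.ne', ← Real.rpow_add_one hx0.ne']; congr 1; ring
  have e4 : x ^ 2 * x ^ (q - 2) = x ^ q := by rw [← e3]; ring
  have e5 : 2 * x * x ^ (q - 1) = 2 * x ^ q := by rw [← e2]; ring
  rw [e4, e5]
  field_simp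
  ring

/-- A finitely supported signed measure on the positive half-line that kills quadratics and is
nonnegative on the truncated squares has the expected sign on the powers. -/
theorem weighted_pow {ι : Type*} [Fintype ι] (x w : ι → ℝ) (hx : ∀ k, 0 < x k)
    (hq : ∀ a b c : ℝ, ∑ k, w k * (a * x k ^ 2 + b * x k + c) = 0)
    (hs : ∀ s, 0 < s → 0 ≤ ∑ k, w k * ff s (x k))
    {q : ℝ} (h0 : q ≠ 0) (h1 : q ≠ 1) (h2 : q ≠ 2) :
    0 ≤ 2 / (q * (q - 1) * (q - 2)) * ∑ k, w k * x k ^ q := by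
  rcases isEmpty_or_nonempty ι with hι | hι
  · simp
  obtain ⟨k0, hk0⟩ := Finite.exists_min x
  obtain ⟨k1, hk1⟩ := Finite.exists_max x
  set m := x k0 with hmdef
  set L := x k1 with hLdef
  have hm : 0 < m := hx k0
  have hL : 0 < L := hx k1
  have hmL : m ≤ L := hk0 k1
  have I1 : 0 ≤ ∫ s in m..L, ∑ k, w k * (ff s (x k) * s ^ (q - 3)) := by
    refine intervalIntegral.integral_nonneg hmL fun s hs' => ?_
    have hs0 : 0 < s := lt_of_lt_of_le hm hs'.1
    have : ∑ k, w k * (ff s (x k) * s ^ (q - 3)) = (∑ k, w k * ff s (x k)) * s ^ (q - 3) := by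
      rw [Finset.sum_mul]
      exact Finset.sum_congr rfl fun k _ => by ring
    rw [this]
    exact mul_nonneg (hs s hs0) (Real.rpow_nonneg hs0.le _)
  rw [intervalIntegral.integral_finsetSum
    (fun k _ => (integrable_integrand q (x k) hm hL).const_mul (w k))] at I1
  simp only [intervalIntegral.integral_const_mul] at I1
  rw [Finset.sum_congr rfl fun k _ => by rw [integral_ff h0 h1 h2 hm (hk0 k) (hk1 k)]] at I1
  simp only [mul_add (w _) (2 / (q * (q - 1) * (q - 2)) * _), Finset.sum_add_distrib] at I1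
  rw [hq, add_zero] at I1
  rw [Finset.mul_sum]
  convert I1 using 2
  ring

variable {n : Type*} [Fintype n] [DecidableEq n]

theorem TT_posDef {A B : Matrix n n ℂ} (hA : A.PosDef) (hB : B.PosDef) : (TT A B).PosDef := by
  have h1 : (rt A).PosDef := cfc_posDef hA.1 fun i => Real.sqrt_pos.mpr (hA.eigenvalues_pos i)
  have := (h1.isUnit.posDef_star_right_conjugate_iff (x := B)).mpr hB
  rwa [star_eq_conjTranspose, rt_herm] at this

theorem DD_pow {A B : Matrix n n ℂ} (hA : A.PosDef) (hB : B.PosDef)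
    {q : ℝ} (h0 : q ≠ 0) (h1 : q ≠ 1) (h2 : q ≠ 2) :
    0 ≤ 2 / (q * (q - 1) * (q - 2)) * DD (fun x => x ^ q) A B := by
  have hA' := hA.posSemidef
  have hB' := hB.posSemidef
  have hT := TT_posDef hA hB
  let x : Fin 5 × n → ℝ := fun p =>
    ![(hA'.1.add hB'.1).eigenvalues p.2, Real.sqrt ((TT_psd A hB').1.eigenvalues p.2),
      hA'.1.eigenvalues p.2, hB'.1.eigenvalues p.2,
      2 * Real.sqrt ((TT_psd A hB').1.eigenvalues p.2)] p.1
  let w : Fin 5 × n → ℝ := fun p => ![1, 2, -1, -1, -1] p.1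
  have key : ∀ f : ℝ → ℝ, DD f A B = ∑ k, w k * f (x k) := by
    intro f
    rw [DD_eq hA' hB', Fintype.sum_prod_type_right]
    refine Finset.sum_congr rfl fun i _ => ?_
    simp [Fin.sum_univ_five, x, w]
    ring
  rw [key]
  refine weighted_pow x w ?_ ?_ ?_ h0 h1 h2
  · rintro ⟨j, i⟩
    have p1 := (hA.add hB).eigenvalues_pos i
    have p2 := Real.sqrt_pos.mpr (hT.eigenvalues_pos i)
    have p3 := hA.eigenvalues_pos i
    have p4 := hB.eigenvalues_pos i
    fin_cases j
    · exact p1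
    · exact p2
    · exact p3
    · exact p4
    · exact mul_pos two_pos p2
  · intro a b c
    rw [← key (fun x => a * x ^ 2 + b * x + c)]
    exact DD_quad hA' hB' a b c
  · intro s hs
    rw [← key (ff s)]
    exact DD_ff_nonneg hA hB hs

theorem DD_pow_eq {A B : Matrix n n ℂ} (hB : B.PosDef) (q : ℝ) :
    DD (fun x => x ^ q) A B
      = (cfc (fun x : ℝ => x ^ q) (A + B)).trace.re
        - ((cfc (fun x : ℝ => x ^ q) A).trace.re + (cfc (fun x : ℝ => x ^ q) B).trace.re
          + (2 ^ q - 2) * (cfc (fun x : ℝ => x ^ (q / 2))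
            (cfc (fun x : ℝ => x ^ (1 / 2 : ℝ)) A * B
              * cfc (fun x : ℝ => x ^ (1 / 2 : ℝ)) A)).trace.re) := by
  have hT := TT_psd A hB.posSemidef
  have e0 : cfc (fun x : ℝ => x ^ (1 / 2 : ℝ)) A * B * cfc (fun x : ℝ => x ^ (1 / 2 : ℝ)) A
      = TT A B := by
    unfold TT rt
    have : Real.sqrt = fun x : ℝ => x ^ (1 / 2 : ℝ) := funext Real.sqrt_eq_rpow
    rw [this]
  rw [e0]
  have e1 : trf (fun x => (Real.sqrt x) ^ q) (TT A B) = trf (fun x => x ^ (q / 2)) (TT A B) := by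
    rw [trf_eq hT.1, trf_eq hT.1]
    refine Finset.sum_congr rfl fun i _ => ?_
    rw [Real.sqrt_eq_rpow, ← Real.rpow_mul (hT.eigenvalues_nonneg i)]
    congr 1
    ring
  have e2 : trf (fun x => (2 * Real.sqrt x) ^ q) (TT A B)
      = 2 ^ q * trf (fun x => (Real.sqrt x) ^ q) (TT A B) := by
    rw [trf_eq hT.1, trf_eq hT.1, Finset.mul_sum]
    refine Finset.sum_congr rfl fun i _ => ?_
    rw [Real.mul_rpow (by norm_num) (Real.sqrt_nonneg _)]
  unfold DD
  rw [e2, e1]
  unfold trf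
  ring

/-- For `q < 0` the complementary McCarthy inequality holds. -/
theorem ineq_neg {A B : Matrix n n ℂ} (hA : A.PosDef) (hB : B.PosDef) {q : ℝ} (hq : q < 0) :
    (cfc (fun x : ℝ => x ^ q) (A + B)).trace.re
      ≤ (cfc (fun x : ℝ => x ^ q) A).trace.re + (cfc (fun x : ℝ => x ^ q) B).trace.re
          + (2 ^ q - 2) * (cfc (fun x : ℝ => x ^ (q / 2))
            (cfc (fun x : ℝ => x ^ (1 / 2 : ℝ)) A * B
              * cfc (fun x : ℝ => x ^ (1 / 2 : ℝ)) A)).trace.re := by
  have h := DD_pow hA hB (q := q) hq.ne (by linarith) (by linarith)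
  have hc : 2 / (q * (q - 1) * (q - 2)) < 0 := by
    apply div_neg_of_pos_of_neg two_pos
    apply mul_neg_of_pos_of_neg (mul_pos_of_neg_of_neg hq (by linarith)) (by linarith)
  have h' : DD (fun x => x ^ q) A B ≤ 0 := by
    by_contra hc'
    push Not at hc'
    have := mul_neg_of_neg_of_pos hc hc'
    linarith
  rw [DD_pow_eq hB] at h'
  linarith

/-- For `2 < q` the reversed inequality holds. -/
theorem ineq_large {A B : Matrix n n ℂ} (hA : A.PosDef) (hB : B.PosDef) {q : ℝ} (hq : 2 < q) :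
    (cfc (fun x : ℝ => x ^ q) A).trace.re + (cfc (fun x : ℝ => x ^ q) B).trace.re
          + (2 ^ q - 2) * (cfc (fun x : ℝ => x ^ (q / 2))
            (cfc (fun x : ℝ => x ^ (1 / 2 : ℝ)) A * B
              * cfc (fun x : ℝ => x ^ (1 / 2 : ℝ)) A)).trace.re
      ≤ (cfc (fun x : ℝ => x ^ q) (A + B)).trace.re := by
  have h := DD_pow hA hB (q := q) (by linarith) (by linarith) (by linarith)
  have hc : 0 < 2 / (q * (q - 1) * (q - 2)) := by
    apply div_pos two_pos
    exact mul_pos (mul_pos (by linarith) (by linarith)) (by linarith)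
  have h' : 0 ≤ DD (fun x => x ^ q) A B := by
    by_contra hc'
    push Not at hc'
    have := mul_neg_of_pos_of_neg hc hc'
    linarith
  rw [DD_pow_eq hB] at h'
  linarith

end Pool.Agent.MP_7b724e_an

end
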